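import Pool.Agent.Lib.MP_e0f6ac_lc.Defs

/-!
Definitions: selection games on an arbitrary class of covers.
-/

open scoped symmDiff

namespace Pool.Agent.Lib.MP_e0f6ac_lc

variable {B : Type} [CompleteBooleanAlgebra B]

namespace Str

variable (S : Str B)

/-- `C` is an open cover of `X`. -/
def ocov (X τ C : S.N) : B := S.opens X τ C ⊓ S.cov C X

/-- `s` is an `ω`-sequence of sets with property `P` (the moves of player I). -/
def gplay (P : S.N → B) (s : S.N) : B :=
  S.fn s ⊓ (⨅ z, S.mem z s ⇨ ⨆ n, ⨆ C, S.mem n S.om ⊓ S.pr z n C ⊓ P C) ⊓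
    ⨅ n, S.mem n S.om ⇨ ⨆ C, S.app s n C

/-- II has a winning strategy in the game on covers with property `P`; `L y C` says that `y` is a
legal answer to `C`, and `E U y` says that the answer `y` contributes `U` to the final family. -/
def gwins (P : S.N → B) (L E : S.N → S.N → B) : B :=
  ⨆ σ, S.fn σ ⊓ ⨅ s, S.gplay P s ⇨
    (⨅ n, S.mem n S.om ⇨ ⨆ C, ⨆ y, S.app s n C ⊓ S.rep σ s n y ⊓ L y C) ⊓
      ⨆ W, P W ⊓ ⨅ U, S.mem U W ⇔ ⨆ n, ⨆ y, S.mem n S.om ⊓ S.rep σ s n y ⊓ E U y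

/-- II has a winning strategy in the `k`-Rothberger game (`0`), the `k`-Menger game (`1`), the
Menger game on open covers (`2`). -/
def game (X τ : S.N) : Fin 3 → B :=
  ![S.gwins (S.kcov X τ) S.mem S.eq,
    S.gwins (S.kcov X τ) (fun F C => S.sub F C ⊓ S.fin F) S.mem,
    S.gwins (S.ocov X τ) (fun F C => S.sub F C ⊓ S.fin F) S.mem]

end Str

end Pool.Agent.Lib.MP_e0f6ac_lc
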