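import Pool.Agent.Lib.MP_e0f6ac_lc.Ground
import Pool.Agent.Lib.MP_e0f6ac_lc.All.Defs

/-!
Below an atom the Boolean-valued universe is the ground model.
-/

open scoped symmDiff

namespace Pool.Agent.Lib.MP_e0f6ac_lc

variable {B : Type} [CompleteBooleanAlgebra B] {a : B}

/-- The ground model set that a name denotes below `a`. -/
noncomputable def val (a : B) : Name B → ZFSet.{0}
  | ⟨_, A, v⟩ => ZFSet.range fun j : {j // a ≤ v j} => val a (A j.1)

theorem mem_val {ι : Type} (A : ι → Name B) (v : ι → B) (y : ZFSet.{0}) :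
    y ∈ val a ⟨ι, A, v⟩ ↔ ∃ j, a ≤ v j ∧ val a (A j) = y := by
  rw [val, ZFSet.mem_range]
  exact ⟨fun ⟨j, h⟩ => ⟨j.1, j.2, h⟩, fun ⟨j, h, e⟩ => ⟨⟨j, h⟩, e⟩⟩

theorem val_check (P : PSet.{0}) : val a (check P) = ZFSet.mk P := by
  induction P with
  | mk ι A ih =>
    ext y
    rw [check_mk, mem_val]
    induction y using Quotient.inductionOn with
    | h y =>
      change _ ↔ ZFSet.mk y ∈ _
      rw [ZFSet.mk_mem_iff]
      constructor
      · rintro ⟨j, _, e⟩
        rw [ih] at e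
        exact ⟨j, ZFSet.exact e.symm⟩
      · rintro ⟨j, e⟩
        exact ⟨j, le_top, (ih j).trans (ZFSet.sound e).symm⟩

theorem at_iSup (ha : IsAtom a) {ι : Sort*} {f : ι → B} : a ≤ ⨆ i, f i ↔ ∃ i, a ≤ f i := by
  refine ⟨fun h => ?_, fun ⟨i, h⟩ => exI i h⟩
  obtain ⟨i, b, hb, h1, h2⟩ := ex_of_le_iSup ha.1 h
  exact ⟨i, ((ha.le_iff.mp h1).resolve_left hb) ▸ h2⟩

theorem at_himp (ha : IsAtom a) {b c : B} : a ≤ b ⇨ c ↔ (a ≤ b → a ≤ c) := by
  refine ⟨fun h h' => mp h h', fun h => impI fun b' h1 h2 => ?_⟩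
  rcases ha.le_iff.mp h1 with rfl | rfl
  · exact bot_le
  · exact h h2

theorem at_sup (ha : IsAtom a) {b c : B} : a ≤ b ⊔ c ↔ a ≤ b ∨ a ≤ c := by
  refine ⟨fun h => ?_, fun h => h.elim le_sup_of_le_left le_sup_of_le_right⟩
  rcases ha.le_iff.mp (inf_le_left : a ⊓ b ≤ a) with e | e
  · right
    have : a ≤ (a ⊓ b) ⊔ c := by
      rw [sup_inf_right]
      exact le_inf le_sup_left h
    rwa [e, bot_sup_eq] at this
  · exact Or.inl (inf_eq_left.mp e)

theorem at_eqv (ha : IsAtom a) (x y : Name B) : a ≤ x.eqv y ↔ val a x = val a y := by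
  induction x generalizing y with
  | mk ι A v ih =>
    obtain ⟨ι', A', v'⟩ := y
    rw [Name.eqv_mk, ZFSet.ext_iff]
    simp only [le_inf_iff, le_iInf_iff, at_himp ha, at_iSup ha, ih, mem_val]
    constructor
    · rintro ⟨h1, h2⟩ z
      constructor
      · rintro ⟨i, hi, rfl⟩
        obtain ⟨j, hj, e⟩ := h1 i hi
        exact ⟨j, hj, e.symm⟩
      · rintro ⟨j, hj, rfl⟩
        exact h2 j hj
    · intro h
      refine ⟨fun i hi => ?_, fun j hj => (h _).mpr ⟨j, hj, rfl⟩⟩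
      obtain ⟨j, hj, e⟩ := (h _).mp ⟨i, hi, rfl⟩
      exact ⟨j, hj, e.symm⟩

theorem at_mem (ha : IsAtom a) (x y : Name B) : a ≤ x.mem y ↔ val a x ∈ val a y := by
  obtain ⟨ι, A, v⟩ := y
  rw [Name.mem_mk, mem_val]
  simp only [le_inf_iff, at_iSup ha, at_eqv ha]
  exact exists_congr fun j => and_congr Iff.rfl eq_comm

/-- `val` between the carriers of the two structures. -/
noncomputable def vl (a : B) : (extension B).N → ground.N := val a

theorem vl_check (X : ZFSet.{0}) : vl a (check X.out) = X :=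
  (val_check _).trans (ZFSet.mk_out X)

theorem vl_surj : Function.Surjective (vl a) := fun y => ⟨_, vl_check y⟩

section transfer

variable (ha : IsAtom a)
include ha

omit ha in
theorem tAll {f : (extension B).N → B} {g : ground.N → Prop} (h : ∀ x, a ≤ f x ↔ g (vl a x)) :
    a ≤ ⨅ x, f x ↔ ⨅ y, g y := by
  rw [le_iInf_iff, iInf_Prop_eq, (vl_surj (a := a)).forall]
  exact forall_congr' h

theorem tEx {f : (extension B).N → B} {g : ground.N → Prop} (h : ∀ x, a ≤ f x ↔ g (vl a x)) :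
    a ≤ ⨆ x, f x ↔ ⨆ y, g y := by
  rw [at_iSup ha, iSup_Prop_eq, (vl_surj (a := a)).exists]
  exact exists_congr h

omit ha in
theorem tInf {b c : B} {p q : Prop} (h : a ≤ b ↔ p) (h' : a ≤ c ↔ q) : a ≤ b ⊓ c ↔ p ⊓ q :=
  le_inf_iff.trans (and_congr h h')

theorem tSup {b c : B} {p q : Prop} (h : a ≤ b ↔ p) (h' : a ≤ c ↔ q) : a ≤ b ⊔ c ↔ p ⊔ q :=
  (at_sup ha).trans (or_congr h h')

theorem tImp {b c : B} {p q : Prop} (h : a ≤ b ↔ p) (h' : a ≤ c ↔ q) : a ≤ b ⇨ c ↔ p ⇨ q :=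
  (at_himp ha).trans (imp_congr h h')

theorem tIff {b c : B} {p q : Prop} (h : a ≤ b ↔ p) (h' : a ≤ c ↔ q) : a ≤ b ⇔ c ↔ p ⇔ q := by
  rw [bihimp_def, bihimp_def]
  exact tInf (tImp ha h' h) (tImp ha h h')

theorem tEq (x y : (extension B).N) :
    a ≤ (extension B).eq x y ↔ ground.eq (vl a x) (vl a y) := at_eqv ha x y

theorem tMem (x y : (extension B).N) :
    a ≤ (extension B).mem x y ↔ ground.mem (vl a x) (vl a y) := at_mem ha x y

theorem tOm (x : (extension B).N) :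
    a ≤ (extension B).mem x (extension B).om ↔ ground.mem (vl a x) ground.om := by
  have h : vl a (extension B).om = ground.om := val_check PSet.omega
  rw [← h]
  exact tMem ha _ _

theorem tSub (x y : (extension B).N) :
    a ≤ (extension B).sub x y ↔ ground.sub (vl a x) (vl a y) :=
  tAll fun _ => tImp ha (tMem ha _ _) (tMem ha _ _)

theorem tDbl (w x y : (extension B).N) :
    a ≤ (extension B).dbl w x y ↔ ground.dbl (vl a w) (vl a x) (vl a y) :=
  tAll fun _ => tIff ha (tMem ha _ _) (tSup ha (tEq ha _ _) (tEq ha _ _))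

theorem tPr (w x y : (extension B).N) :
    a ≤ (extension B).pr w x y ↔ ground.pr (vl a w) (vl a x) (vl a y) :=
  tAll fun _ => tIff ha (tMem ha _ _) (tSup ha (tDbl ha _ _ _) (tDbl ha _ _ _))

theorem tApp (w x y : (extension B).N) :
    a ≤ (extension B).app w x y ↔ ground.app (vl a w) (vl a x) (vl a y) :=
  tEx ha fun _ => tInf (tMem ha _ _) (tPr ha _ _ _)

theorem tFn (f : (extension B).N) : a ≤ (extension B).fn f ↔ ground.fn (vl a f) :=
  tAll fun _ => tAll fun _ => tAll fun _ =>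
    tImp ha (tInf (tApp ha _ _ _) (tApp ha _ _ _)) (tEq ha _ _)

theorem tFin (f : (extension B).N) : a ≤ (extension B).fin f ↔ ground.fin (vl a f) :=
  tEx ha fun _ => tEx ha fun _ => tInf (tInf (tOm ha _) (tFn ha _))
    (tAll fun _ => tImp ha (tMem ha _ _) (tEx ha fun _ => tInf (tMem ha _ _) (tApp ha _ _ _)))

theorem tOpens (X τ C : (extension B).N) :
    a ≤ (extension B).opens X τ C ↔ ground.opens (vl a X) (vl a τ) (vl a C) :=
  tAll fun _ => tImp ha (tMem ha _ _) (tInf (tSub ha _ _) (tAll fun _ => tImp ha (tMem ha _ _)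
    (tEx ha fun _ => tInf (tInf (tMem ha _ _) (tMem ha _ _)) (tSub ha _ _))))

theorem tCov (C K : (extension B).N) :
    a ≤ (extension B).cov C K ↔ ground.cov (vl a C) (vl a K) :=
  tAll fun _ => tImp ha (tMem ha _ _) (tEx ha fun _ => tInf (tMem ha _ _) (tMem ha _ _))

theorem tCpt (X τ K : (extension B).N) :
    a ≤ (extension B).cpt X τ K ↔ ground.cpt (vl a X) (vl a τ) (vl a K) :=
  tInf (tSub ha _ _) (tAll fun _ => tImp ha (tInf (tOpens ha _ _ _) (tCov ha _ _))
    (tEx ha fun _ => tInf (tInf (tSub ha _ _) (tFin ha _)) (tCov ha _ _)))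

theorem tKcov (X τ C : (extension B).N) :
    a ≤ (extension B).kcov X τ C ↔ ground.kcov (vl a X) (vl a τ) (vl a C) :=
  tInf (tOpens ha _ _ _) (tAll fun _ => tImp ha (tCpt ha _ _ _)
    (tEx ha fun _ => tInf (tMem ha _ _) (tSub ha _ _)))

theorem tOcov (X τ C : (extension B).N) :
    a ≤ (extension B).ocov X τ C ↔ ground.ocov (vl a X) (vl a τ) (vl a C) :=
  tInf (tOpens ha _ _ _) (tCov ha _ _)

theorem tPlay {P : (extension B).N → B} {P' : ground.N → Prop} (hP : ∀ x, a ≤ P x ↔ P' (vl a x))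
    (s : (extension B).N) : a ≤ (extension B).gplay P s ↔ ground.gplay P' (vl a s) :=
  tInf (tInf (tFn ha _) (tAll fun _ => tImp ha (tMem ha _ _) (tEx ha fun _ => tEx ha fun _ =>
    tInf (tInf (tOm ha _) (tPr ha _ _ _)) (hP _))))
    (tAll fun _ => tImp ha (tOm ha _) (tEx ha fun _ => tApp ha _ _ _))

theorem tRep (σ s n y : (extension B).N) :
    a ≤ (extension B).rep σ s n y ↔ ground.rep (vl a σ) (vl a s) (vl a n) (vl a y) :=
  tEx ha fun _ => tInf (tAll fun _ => tIff ha (tMem ha _ _) (tInf (tMem ha _ _)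
    (tEx ha fun _ => tEx ha fun _ => tInf (tSup ha (tMem ha _ _) (tEq ha _ _)) (tPr ha _ _ _))))
    (tApp ha _ _ _)

theorem tWins {P : (extension B).N → B} {P' : ground.N → Prop}
    {L E : (extension B).N → (extension B).N → B} {L' E' : ground.N → ground.N → Prop}
    (hP : ∀ x, a ≤ P x ↔ P' (vl a x))
    (hL : ∀ x y, a ≤ L x y ↔ L' (vl a x) (vl a y)) (hE : ∀ x y, a ≤ E x y ↔ E' (vl a x) (vl a y)) :
    a ≤ (extension B).gwins P L E ↔ ground.gwins P' L' E' :=
  tEx ha fun _ => tInf (tFn ha _) (tAll fun _ => tImp ha (tPlay ha hP _) (tInf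
    (tAll fun _ => tImp ha (tOm ha _) (tEx ha fun _ => tEx ha fun _ =>
      tInf (tInf (tApp ha _ _ _) (tRep ha _ _ _ _)) (hL _ _)))
    (tEx ha fun _ => tInf (hP _) (tAll fun _ => tIff ha (tMem ha _ _)
      (tEx ha fun _ => tEx ha fun _ => tInf (tInf (tOm ha _) (tRep ha _ _ _ _)) (hE _ _))))))

theorem tGame (X τ : ZFSet.{0}) (i : Fin 3) :
    a ≤ (extension B).game (check X.out) (check τ.out) i ↔ ground.game X τ i := by
  have h : a ≤ (extension B).game (check X.out) (check τ.out) i ↔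
      ground.game (vl a (check X.out)) (vl a (check τ.out)) i := by
    fin_cases i
    · exact tWins ha (tKcov ha _ _) (tMem ha) (tEq ha)
    · exact tWins ha (tKcov ha _ _) (fun _ _ => tInf (tSub ha _ _) (tFin ha _)) (tMem ha)
    · exact tWins ha (tOcov ha _ _) (fun _ _ => tInf (tSub ha _ _) (tFin ha _)) (tMem ha)
  rwa [vl_check, vl_check] at h

end transfer

end Pool.Agent.Lib.MP_e0f6ac_lc
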