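import Pool.Agent.Lib.MP_e0f6ac_lc.All.Dir

/-!
Below a condition with no atom under it, II has no winning strategy on the ground model cube.
-/

open scoped symmDiff

namespace Pool.Agent.Lib.MP_e0f6ac_lc

variable {B : Type} [CompleteBooleanAlgebra B]

/-- The value of: `t` differs on `F` from the generic subset of `B`. -/
def dfr (F : Finset B) (t : B → Bool) : B := ⨆ c, ⨆ _ : c ∈ F, cond (t c) cᶜ c

theorem dfr_mono {F F' : Finset B} (h : F ≤ F') (t : B → Bool) : dfr F t ≤ dfr F' t :=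
  iSup_le fun c => iSup_le fun hc => exI c (exI (h hc) le_rfl)

theorem dfr_top {p : B} (hp : ∀ b, b ≠ ⊥ → b ≤ p → ∃ c, b ⊓ c ≠ ⊥ ∧ b ⊓ cᶜ ≠ ⊥) (t : B → Bool) :
    p ≤ ⨆ F, dfr F t := by
  refine dense_le fun b hb hbp => ?_
  obtain ⟨c, h1, h2⟩ := hp b hb hbp
  refine ⟨b ⊓ cond (t c) cᶜ c, ?_, inf_le_left,
    exI {c} (exI c (exI (Finset.mem_singleton_self c) inf_le_right))⟩
  cases t c
  · exact h1
  · exact h2

theorem dfr_dec (F : Finset B) (b : B) : b ≤ ⨆ t, (dfr F t)ᶜ := by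
  classical
  induction F using Finset.induction_on with
  | empty => exact exI (fun _ => false) (by simp [dfr])
  | insert c F hc ih =>
    refine exE ih fun t b1 _ ht => ?_
    have key : ∀ (e : Bool) (b2 : B), b2 ≤ b1 → b2 ≤ (cond e cᶜ c)ᶜ →
        b2 ≤ ⨆ t, (dfr (insert c F) t)ᶜ := by
      intro e b2 hb2 he
      refine exI (Function.update t c e) (le_compl_iff_disjoint_right.mpr (disjoint_iff.mpr
        (le_bot_iff.mp (exE inf_le_right fun d b3 hb3 h => exE h fun hd b4 hb4 h' => ?_))))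
      have h4 : b4 ≤ b2 := l1 (hb4.trans hb3)
      rcases Finset.mem_insert.mp hd with rfl | hd'
      · rw [Function.update_self] at h'
        exact absurdB h' (h4.trans he)
      · rw [Function.update_of_ne (fun e : d = c => hc (e ▸ hd'))] at h'
        exact absurdB (exI d (exI hd' h')) (h4.trans (hb2.trans ht))
    have hem : b1 ≤ c ⊔ cᶜ := by rw [sup_compl_eq_top]; exact le_top
    exact orE hem (fun b2 hb2 h => key true b2 hb2 (by simpa using h))
      fun b2 hb2 h => key false b2 hb2 h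

/-- The index set of fibres: a sequence of conditions and a length. -/
abbrev Nd (B : Type) : Type := (ℕ → B) × ℕ

/-- The fibre that codes the first `k + 1` terms of `β`. -/
def node (β : ℕ → B) (k : ℕ) : Nd B := (fun j => if j ≤ k then β j else ⊥, k)

theorem node_congr {β β' : ℕ → B} {k : ℕ} (h : ∀ j, j ≤ k → β j = β' j) :
    node β k = node β' k := by
  unfold node
  congr 1
  funext j
  split_ifs with hj
  · exact h j hj
  · rfl

theorem node_node (β : ℕ → B) {i k : ℕ} (h : i ≤ k) : node (node β k).1 i = node β i :=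
  node_congr fun _ hj => if_pos (hj.trans h)

namespace Good

variable {S : Str B} (G : Good S)
include G

/-- The name of the open set of points whose `n`-th fibre differs from the generic set on `F`. -/
noncomputable def opF (n : Nd B) (F : Finset B) : S.N :=
  G.mkN (Cube (B × Nd B)) (fun x => G.chk (cd _ x)) fun x => dfr F fun c => x.1 (c, n)

theorem opF_mono (n : Nd B) (F F' : Finset B) (h : F ≤ F') : ⊤ ≤ S.sub (G.opF n F) (G.opF n F') :=
  subI fun _ _ _ hz => G.mkE hz fun x _ _ hv hx => G.mkI x (hv.trans (dfr_mono h _)) hx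

theorem opF_mem {n : Nd B} {F : Finset B} {x : Cube (B × Nd B)} {b : B}
    (h : b ≤ S.mem (G.chk (cd _ x)) (G.opF n F)) : b ≤ dfr F fun c => x.1 (c, n) :=
  G.mkE h fun _ _ _ hv hy => G.chk_eqE hy fun e => by rw [cd_inj e]; exact hv

theorem opF_opn (n : Nd B) (F : Finset B) :
    ⊤ ≤ S.opn (G.chk (sX (Cube (B × Nd B)))) (G.chk (sT (Cube (B × Nd B)))) (G.opF n F) := by
  refine le_inf (subI fun z b _ hz => G.mkE hz fun x b1 _ _ hx =>
    G.ml (G.sy hx) (G.chkI (cd_mem_sX x))) ?_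
  refine le_iInf fun z => impI fun b _ hz => G.mkE hz fun x b1 _ hv hx => ?_
  refine exE hv fun c b2 hb2 h1 => exE h1 fun hc b3 hb3 h2 => ?_
  have ho : IsOpen {y : Cube (B × Nd B) | y.1 (c, n) = x.1 (c, n)} :=
    (isOpen_discrete {x.1 (c, n)}).preimage (f := fun y : Cube (B × Nd B) => y.1 (c, n)) (by fun_prop)
  refine exI (G.chk (sS {y : Cube (B × Nd B) | y.1 (c, n) = x.1 (c, n)}))
    (le_inf (le_inf (G.chkI (sS_mem_sT ho)) ?_) ?_)
  · exact G.ml (G.sy ((hb3.trans hb2).trans hx)) (G.chkI (cd_mem_sS.mpr rfl))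
  · refine subI fun w b4 hb4 hw => G.chkE hw fun y b5 hy hb5 hwy => ?_
    obtain ⟨y', hy', rfl⟩ := mem_sS.mp hy
    refine G.mkI y' (exI c (exI hc ?_)) hwy
    beta_reduce
    rw [show y'.1 (c, n) = x.1 (c, n) from hy']
    exact (hb5.trans hb4).trans h2

/-- The main lemma. -/
theorem kill {p : B} (P : S.N → B) (hP : ∀ n, p ≤ P (G.famJ (G.opF n)))
    (hPX : ∀ b W, b ≤ P W → b ≤ S.cov W (G.chk (sX (Cube (B × Nd B))))) (L E : S.N → S.N → B)
    (hLE : ∀ (O : Finset B → S.N), (∀ m m', m ≤ m' → ⊤ ≤ S.sub (O m) (O m')) → ∀ b y C,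
      b ≤ L y C → b ≤ S.eq C (G.famJ O) → b ≤ ⨆ m, ⨅ U, E U y ⇨ S.sub U (O m))
    (hE : ∀ b U y y', b ≤ E U y → b ≤ S.eq y y' → b ≤ E U y') :
    p ⊓ S.gwins P L E ≤ ⊥ := by
  classical
  refine exE inf_le_right fun σ b₀ hb0 hσ => ?_
  have hfn := l1 hσ
  have hwin := l2 hσ
  let C : Nd B → S.N := fun s => G.famJ (G.opF s)
  have hC : ∀ s, b₀ ≤ P (C s) := fun s => (l1 hb0).trans (hP s)
  let R : Nd B → Finset B → B := fun s F =>
    ⨆ y, S.app σ (G.histJ C (node s.1) s.2) y ⊓ ⨅ U, E U y ⇨ S.sub U (G.opF s F)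
  have hh : ∀ β k, G.histJ C (node (node β k).1) (node β k).2 = G.histJ C (node β) k :=
    fun β k => G.histJ_congr C fun j hj => node_node β hj
  -- Step 1: the strategy replies to ground model sequences of moves
  have step1 : ∀ β k, b₀ ≤ ⨆ F, R (node β k) F := by
    intro β k
    let w : ℕ → Nd B → B := fun n s => if s = node β n then ⊤ else ⊥
    have hw : ∀ n s s', s ≠ s' → w n s ⊓ w n s' = ⊥ := by
      intro n s s' h
      simp only [w]
      split_ifs with h1 h2
      · exact absurd (h1.trans h2.symm) h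
      all_goals simp
    have hwu : ∀ (b : B) n, b ≤ w n (node β n) := fun b n => by simp [w]
    have hplay : b₀ ≤ S.gplay P (G.seqJ C w) :=
      G.play_seqJ hC hw fun n => exI (node β n) (hwu _ n)
    have h1 := mp (allE (l1 (mp (allE hwin _) hplay)) (G.num k)) (G.omI k)
    refine exE h1 fun C' b1 _ h2 => exE h2 fun y b2 _ h3 => ?_
    have h4 := G.app_seqJ hw (G.rf _) (hwu _ k) (l1 (l1 h3))
    have h5 := G.rep_seqJ hw (G.rf _) (fun i _ => hwu _ i) (l2 (l1 h3))
    refine exE (hLE _ (G.opF_mono (node β k)) b2 y C' (l2 h3) h4) fun m b3 hb3 h6 => ?_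
    rw [← hh] at h5
    exact exI m (exI y (le_inf (hb3.trans h5) h6))
  -- Step 2: the ground model point, one decision in each fibre
  have step2 : ∀ s : Nd B, ∃ t : B → Bool, s.1 s.2 ≠ ⊥ → s.1 s.2 ≤ ⨆ F, R s F →
      ∃ b, b ≠ ⊥ ∧ b ≤ s.1 s.2 ∧ b ≤ ⨆ F, R s F ⊓ (dfr F t)ᶜ := by
    intro s
    by_cases h : s.1 s.2 ≠ ⊥ ∧ s.1 s.2 ≤ ⨆ F, R s F
    · obtain ⟨F, b1, hb1, h1, h2⟩ := ex_of_le_iSup h.1 h.2
      obtain ⟨t, b2, hb2, h3, h4⟩ := ex_of_le_iSup hb1 (dfr_dec F b1)
      exact ⟨t, fun _ _ => ⟨b2, hb2, h3.trans h1, exI F (le_inf (h3.trans h2) h4)⟩⟩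
    · exact ⟨fun _ => false, fun h1 h2 => absurd ⟨h1, h2⟩ h⟩
  choose t ht using step2
  let x : Cube (B × Nd B) := (fun q => t q.2 q.1, 0)
  let A : (ℕ → B) → ℕ → B → B := fun β k b =>
    ⨆ F, R (node (Function.update β k b) k) F ⊓ (dfr F (t (node (Function.update β k b) k)))ᶜ
  have A_congr : ∀ u u' k, (∀ j, j < k → u j = u' j) → A u k = A u' k := by
    intro u u' k h
    funext s
    simp only [A]
    rw [node_congr (β := Function.update u k s) (β' := Function.update u' k s)]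
    intro j hj
    rcases hj.lt_or_eq with h' | rfl
    · rw [Function.update_of_ne h'.ne, Function.update_of_ne h'.ne, h j h']
    · simp
  have hA : ∀ u k, b₀ ≤ ⨆ s, A u k s := fun u k => dense_le fun b hb hb0 => by
    have e : (node (Function.update u k b) k).1 (node (Function.update u k b) k).2 = b := by
      simp [node]
    have h1 := ht (node (Function.update u k b) k)
    rw [e] at h1
    obtain ⟨b', hb', h2, h3⟩ := h1 hb (hb0.trans (step1 _ _))
    exact ⟨b', hb', h2, exI b h3⟩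
  choose dj dj1 dj2 dj3 using fun f : B → B => exists_disj f
  -- Step 3: the play of I in the extension
  let Pl : (ℕ → B) → ℕ → B := fun u k => ⨅ i, ⨅ _ : i < k, dj (A u i) (u i)
  have hPl_le : ∀ u k i, i < k → Pl u k ≤ dj (A u i) (u i) := fun u k i hi =>
    iInf₂_le (f := fun i (_ : i < k) => dj (A u i) (u i)) i hi
  have hPl : ∀ k, b₀ ≤ ⨆ u, Pl u k := by
    intro k
    induction k with
    | zero => exact exI (fun _ => ⊥) (le_iInf fun i => le_iInf fun hi => absurd hi (by simp))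
    | succ k ih =>
      refine exE ih fun u b1 hb1 hu => ?_
      have h1 : b1 ≤ ⨆ s, dj (A u k) s := (hb1.trans (hA u k)).trans (dj3 _)
      refine exE h1 fun s b2 hb2 hs => exI (Function.update u k s) ?_
      refine le_iInf fun i => le_iInf fun hi => ?_
      rw [A_congr (Function.update u k s) u i
        (fun j hj => Function.update_of_ne (by omega) _ _)]
      rcases Nat.lt_succ_iff_lt_or_eq.mp hi with h' | rfl
      · rw [Function.update_of_ne h'.ne]
        exact allE (allE (hb2.trans hu) i) h'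
      · rw [Function.update_self]
        exact hs
  have hPl_disj : ∀ k u u', (∃ i, i < k ∧ u i ≠ u' i) → Pl u k ⊓ Pl u' k = ⊥ := by
    intro k u u' h
    have hi := Nat.find_spec h
    set i := Nat.find h with hidef
    have hlt : ∀ j, j < i → u j = u' j := by
      intro j hj
      by_contra hne
      exact Nat.find_min h hj ⟨hj.trans hi.1, hne⟩
    have h1 : Pl u k ≤ dj (A u i) (u i) := hPl_le u k i hi.1
    have h2 : Pl u' k ≤ dj (A u i) (u' i) := by
      rw [A_congr u u' i hlt]; exact hPl_le u' k i hi.1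
    exact le_bot_iff.mp ((inf_le_inf h1 h2).trans (dj2 _ _ _ hi.2))
  let w : ℕ → Nd B → B := fun n s => ⨆ u, ⨆ _ : node u n = s, Pl u (n + 1)
  have hw : ∀ n p p', p ≠ p' → w n p ⊓ w n p' = ⊥ := by
    intro n p p' h
    rw [← le_bot_iff]
    refine exE inf_le_left fun u b1 hb1 h1 => exE h1 fun e b2 hb2 h2 => ?_
    refine exE ((hb2.trans hb1).trans inf_le_right) fun u' b3 hb3 h3 =>
      exE h3 fun e' b4 hb4 h4 => ?_
    have hne : ∃ i, i < n + 1 ∧ u i ≠ u' i := by
      by_contra hcon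
      push Not at hcon
      exact h (e.symm.trans ((node_congr fun j hj => hcon j (Nat.lt_succ_of_le hj)).trans e'))
    rw [← hPl_disj (n + 1) u u' hne]
    exact le_inf ((hb4.trans hb3).trans h2) h4
  have hwu : ∀ u k i, i ≤ k → Pl u (k + 1) ≤ w i (node u i) := by
    intro u k i hi
    refine exI u (exI rfl (le_iInf fun j => le_iInf fun hj => ?_))
    exact hPl_le u (k + 1) j (by omega)
  have hplay : b₀ ≤ S.gplay P (G.seqJ C w) :=
    G.play_seqJ hC hw fun n => exE (hPl (n + 1)) fun u b1 _ hu =>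
      exI (node u n) (hu.trans (hwu u n n le_rfl))
  refine exE (l2 (mp (allE hwin _) hplay)) fun W b1 hb1 hW => ?_
  refine exE (mp (allE (hPX _ _ (l1 hW)) _) (G.chkI (cd_mem_sX x))) fun U b2 hb2 hU => ?_
  have hxU := l2 hU
  refine exE (iffE1 (allE (hb2.trans (l2 hW)) U) (l1 hU)) fun n b3 hb3 h1 =>
    exE h1 fun y b4 hb4 h2 => ?_
  refine G.omE (l1 (l1 h2)) fun k b5 hb5 hk => ?_
  have hb50 : b5 ≤ b₀ := hb5.trans (hb4.trans (hb3.trans (hb2.trans hb1)))
  refine exE (hb50.trans (hPl (k + 1))) fun u b6 hb6 hu => ?_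
  have h3 : b6 ≤ S.app σ (G.histJ C (node u) k) y :=
    G.rep_seqJ hw (hb6.trans hk) (fun i hi => hu.trans (hwu u k i hi))
      ((hb6.trans hb5).trans (l2 (l1 h2)))
  have h4 : b6 ≤ A u k (u k) :=
    (allE (allE hu k) (Nat.lt_succ_self k)).trans (dj1 _ _)
  refine exE h4 fun m b7 hb7 h5 => ?_
  rw [Function.update_eq_self] at h5
  refine exE (l1 h5) fun y' b8 hb8 h6 => ?_
  have hb86 : b8 ≤ b6 := hb8.trans hb7
  rw [hh] at h6
  have h7 : b8 ≤ S.eq y y' := fnE ((hb86.trans hb6).trans (hb50.trans hfn)) (hb86.trans h3) (l1 h6)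
  have h8 : b8 ≤ E U y' := hE _ _ _ _ ((hb86.trans hb6).trans (hb5.trans (l2 h2))) h7
  have h9 := subE (mp (allE (l2 h6) U) h8)
    ((hb86.trans hb6).trans (hb5.trans (hb4.trans (hb3.trans hxU))))
  exact absurdB (G.opF_mem h9) (hb8.trans (l2 h5))

theorem kill_game {p : B} (hp : ∀ b, b ≠ ⊥ → b ≤ p → ∃ c, b ⊓ c ≠ ⊥ ∧ b ⊓ cᶜ ≠ ⊥) (i : Fin 3) :
    p ⊓ S.game (G.chk (sX (Cube (B × Nd B)))) (G.chk (sT (Cube (B × Nd B)))) i ≤ ⊥ := by
  classical
  have ho : ∀ n, p ≤ S.ocov (G.chk (sX (Cube (B × Nd B)))) (G.chk (sT (Cube (B × Nd B))))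
      (G.famJ (G.opF n)) := fun n => by
    refine G.ocov_famJ (G.opF_opn n) fun z b hb hz => G.chkE hz fun y b1 hy hb1 hzy => ?_
    obtain ⟨x, _, rfl⟩ := mem_sS.mp hy
    exact exE ((hb1.trans hb).trans (dfr_top hp fun c => x.1 (c, n))) fun m b2 hb2 hm =>
      exI m (G.mkI x hm (hb2.trans hzy))
  have hk := fun n => G.kcov_dir (G.opF_mono n) (ho n)
  fin_cases i
  · refine G.kill _ hk (fun _ _ => G.cov_of_kcov) _ _ (fun O _ b y C hy hC => ?_)
      fun b U y y' h h' => G.tr h h'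
    refine G.famJE (G.mr hC hy) fun m b1 _ hm => exI m (le_iInf fun U => impI fun b2 hb2 hU => ?_)
    exact G.sub_of_eq (G.tr hU (hb2.trans hm))
  · exact G.kill _ hk (fun _ _ => G.cov_of_kcov) _ _
      (fun _ hO _ _ _ hy hC => G.fin_dir hO (subT (l1 hy) (G.sub_of_eq hC)) (l2 hy))
      fun _ _ _ _ h h' => G.mr h' h
  · exact G.kill _ ho (fun _ _ => l2) _ _
      (fun _ hO _ _ _ hy hC => G.fin_dir hO (subT (l1 hy) (G.sub_of_eq hC)) (l2 hy))
      fun _ _ _ _ h h' => G.mr h' h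

end Good

/-- Every condition that is incompatible with all atoms splits. -/
theorem split_of_le (b : B) (hb : b ≠ ⊥) (h : b ≤ (sSup {a : B | IsAtom a})ᶜ) :
    ∃ c, b ⊓ c ≠ ⊥ ∧ b ⊓ cᶜ ≠ ⊥ := by
  by_contra hs
  have ha : IsAtom b := ⟨hb, fun c hc => by
    by_contra hc0
    refine hs ⟨c, by rwa [inf_eq_right.mpr hc.le], fun e => hc.not_ge ?_⟩
    rwa [← disjoint_iff, disjoint_compl_right_iff] at e⟩
  exact hb (le_bot_iff.mp (absurdB (le_sSup (show b ∈ {a : B | IsAtom a} from ha)) h))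

end Pool.Agent.Lib.MP_e0f6ac_lc
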