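import Pool.Agent.Lib.MP_e0f6ac_lc.Ground
import Pool.Agent.Lib.MP_e0f6ac_lc.All.Defs

/-!
Coding a topological space by sets; II wins both games on hemicompact spaces.
-/

open scoped symmDiff

namespace Pool.Agent.Lib.MP_e0f6ac_lc

/-- An injective coding of a type by sets. -/
noncomputable def cd (Y : Type) (y : Y) : ZFSet.{0} := (embeddingToCardinal y).ord.toZFSet

variable {Y : Type}

theorem cd_inj {x y : Y} (h : cd Y x = cd Y y) : x = y :=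
  embeddingToCardinal.injective (Cardinal.ord_injective (Ordinal.toZFSet_injective h))

/-- The code of a subset. -/
noncomputable def sS (A : Set Y) : ZFSet.{0} := ZFSet.range fun y : A => cd Y y.1

theorem mem_sS {A : Set Y} {z : ZFSet.{0}} : z ∈ sS A ↔ ∃ y ∈ A, cd Y y = z :=
  ZFSet.mem_range.trans ⟨fun ⟨y, h⟩ => ⟨y.1, y.2, h⟩, fun ⟨y, h, e⟩ => ⟨⟨y, h⟩, e⟩⟩

theorem cd_mem_sS {A : Set Y} {y : Y} : cd Y y ∈ sS A ↔ y ∈ A :=
  mem_sS.trans ⟨fun ⟨_, h, e⟩ => cd_inj e ▸ h, fun h => ⟨y, h, rfl⟩⟩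

theorem sS_mono {A A' : Set Y} (h : A ⊆ A') : sS A ⊆ sS A' := fun _ hz => by
  obtain ⟨y, hy, rfl⟩ := mem_sS.mp hz
  exact cd_mem_sS.mpr (h hy)

/-- The code of the space. -/
noncomputable def sX (Y : Type) : ZFSet.{0} := sS (Set.univ : Set Y)

theorem sS_sub (A : Set Y) : sS A ⊆ sX Y := sS_mono (Set.subset_univ A)

theorem cd_mem_sX (y : Y) : cd Y y ∈ sX Y := cd_mem_sS.mpr trivial

variable [TopologicalSpace Y]

/-- The code of the topology. -/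
noncomputable def sT (Y : Type) [TopologicalSpace Y] : ZFSet.{0} :=
  ZFSet.sep (fun U => IsOpen {y | cd Y y ∈ U}) (sX Y).powerset

theorem mem_sT {U : ZFSet.{0}} : U ∈ sT Y ↔ U ⊆ sX Y ∧ IsOpen {y | cd Y y ∈ U} := by
  unfold sT
  rw [ZFSet.mem_sep, ZFSet.mem_powerset]

theorem sS_mem_sT {A : Set Y} (h : IsOpen A) : sS A ∈ sT Y :=
  mem_sT.mpr ⟨sS_sub A, by simpa only [cd_mem_sS, Set.ofPred_mem_eq] using h⟩

theorem isTop_s : IsTop (sX Y) (sT Y) := by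
  refine ⟨fun U hU => (mem_sT.mp hU).1, sS_mem_sT isOpen_univ, ?_, ?_⟩
  · intro U hU V hV
    rw [mem_sT] at hU hV ⊢
    refine ⟨fun z hz => hU.1 (ZFSet.mem_inter.mp hz).1, ?_⟩
    have : {x | cd Y x ∈ U ∩ V} = {x | cd Y x ∈ U} ∩ {x | cd Y x ∈ V} := by
      ext x; simp
    rw [this]
    exact hU.2.inter hV.2
  · intro C hC
    rw [mem_sT]
    constructor
    · intro z hz
      obtain ⟨U, hU, hzU⟩ := ZFSet.mem_sUnion.mp hz
      exact (mem_sT.mp (hC hU)).1 hzU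
    · have : {x | cd Y x ∈ ZFSet.sUnion C} = ⋃ U : C, {x | cd Y x ∈ (U : ZFSet)} := by
        ext x; simp
      rw [this]
      exact isOpen_iUnion fun U => (mem_sT.mp (hC U.2)).2

theorem sS_opn {A : Set Y} (h : IsOpen A) : ground.opn (sX Y) (sT Y) (sS A) :=
  (g_opn _ _ _).mpr ⟨sS_sub A, fun _ hx => ⟨sS A, sS_mem_sT h, hx, fun _ h => h⟩⟩

theorem isOpen_of_opn' {U : ZFSet.{0}} (h : ground.opn (sX Y) (sT Y) U) :
    IsOpen {y | cd Y y ∈ U} := by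
  rw [isOpen_iff_forall_mem_open]
  intro x hx
  obtain ⟨V, hV, h1, h2⟩ := ((g_opn _ _ _).mp h).2 (cd Y x) hx
  exact ⟨{y | cd Y y ∈ V}, fun y hy => h2 (show cd Y y ∈ V from hy), (mem_sT.mp hV).2, h1⟩

theorem sS_cpt {A : Set Y} (hK : IsCompact A) : ground.cpt (sX Y) (sT Y) (sS A) := by
  simp only [Str.cpt, iSup_Prop_eq, iInf_Prop_eq, himp_iff_imp, inf_Prop_eq]
  refine ⟨(g_sub _ _).mpr (sS_sub A), ?_⟩
  rintro (C : ZFSet.{0}) ⟨h1, h2⟩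
  rw [g_opens] at h1
  rw [g_cov] at h2
  obtain ⟨t, ht⟩ := hK.elim_finite_subcover (fun U : C => {y | cd Y y ∈ (U : ZFSet)})
    (fun U => isOpen_of_opn' (h1 _ U.2)) (by
      intro x hx
      obtain ⟨U, hU, hxU⟩ := h2 (cd Y x) (cd_mem_sS.mpr hx)
      exact Set.mem_iUnion.mpr ⟨⟨U, hU⟩, hxU⟩)
  let e := t.equivFin
  refine ⟨ZFSet.range fun i : Fin t.card => ((e.symm i).1 : ZFSet), ⟨(g_sub _ _).mpr ?_,
    g_fin_range _⟩, (g_cov _ _).mpr ?_⟩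
  · intro U hU
    obtain ⟨i, rfl⟩ := ZFSet.mem_range.mp hU
    exact (e.symm i).1.2
  · intro y hy
    obtain ⟨x, hxA, rfl⟩ := mem_sS.mp hy
    have hx := ht hxA
    simp only [Set.mem_iUnion] at hx
    obtain ⟨U, hU, hxU⟩ := hx
    exact ⟨U, ZFSet.mem_range.mpr ⟨e ⟨U, hU⟩, by simp⟩, hxU⟩

/-- II wins in the ground model by meeting the `n`-th demand in inning `n`. -/
theorem gwins_of {X : ZFSet.{0}} (P : ZFSet.{0} → Prop) (L E : ZFSet.{0} → ZFSet.{0} → Prop)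
    (T : ℕ → ZFSet.{0} → Prop) (hX : ∀ C, P C → ∀ U ∈ C, U ⊆ X)
    (hT : ∀ n C, P C → ∃ y, L y C ∧ T n y)
    (hW : ∀ C y : ℕ → ZFSet.{0}, (∀ k, P (C k)) → (∀ k, L (y k) (C k) ∧ T k (y k)) →
      ∃ W : ZFSet.{0}, P W ∧ ∀ U, U ∈ W ↔ ∃ k, E U (y k)) :
    ground.gwins P L E := by
  classical
  let Spec : ZFSet.{0} → ZFSet.{0} → Prop := fun h U => ∃ n C, (nat n).pair C ∈ h ∧
    (∀ i D, (nat i).pair D ∈ h → i ≤ n) ∧ L U C ∧ T n U
  let ch : ZFSet.{0} → ZFSet.{0} := fun h => Classical.epsilon (Spec h)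
  let Dom : ZFSet.{0} := (ZFSet.omega.prod X.powerset.powerset).powerset
  let σ : ZFSet.{0} := ZFSet.range fun h : Dom => (h : ZFSet).pair (ch h)
  have hσ : ∀ h y, h.pair y ∈ σ ↔ h ∈ Dom ∧ y = ch h := by
    intro h y
    refine ZFSet.mem_range.trans ⟨?_, ?_⟩
    · rintro ⟨h', e⟩
      rw [ZFSet.pair_inj] at e
      rw [← e.1, ← e.2]
      exact ⟨h'.2, rfl⟩
    · rintro ⟨h1, rfl⟩
      exact ⟨⟨h, h1⟩, rfl⟩
  simp only [Str.gwins, iSup_Prop_eq, iInf_Prop_eq, himp_iff_imp, inf_Prop_eq, prop_bihimp]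
  refine ⟨σ, (g_fn _).mpr fun a b c h1 h2 => ?_, ?_⟩
  · rw [((hσ _ _).mp h1).2, ((hσ _ _).mp h2).2]
  intro (s : ZFSet.{0}) hs
  simp only [Str.gplay, iSup_Prop_eq, iInf_Prop_eq, himp_iff_imp, inf_Prop_eq] at hs
  obtain ⟨⟨hfn, hmem⟩, htot⟩ := hs
  rw [g_fn] at hfn
  have hmem' : ∀ z ∈ s, ∃ k C, z = (nat k).pair C ∧ P C := by
    intro z hz
    obtain ⟨n, C, ⟨h1, h2⟩, h3⟩ := hmem z hz
    obtain ⟨k, rfl⟩ := mem_omega.mp h1
    exact ⟨k, C, (g_pr _ _ _).mp h2, h3⟩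
  have htot' : ∀ k, ∃ C, (nat k).pair C ∈ s ∧ P C := by
    intro k
    obtain ⟨C, hC⟩ := htot (nat k) (mem_omega.mpr ⟨k, rfl⟩)
    rw [g_app] at hC
    obtain ⟨k', C', e, h⟩ := hmem' _ hC
    rw [ZFSet.pair_inj] at e
    exact ⟨C, hC, e.2 ▸ h⟩
  choose C hCs hCk using htot'
  let hs : ℕ → ZFSet.{0} := fun k =>
    ZFSet.sep (fun z => ∃ i D : ZFSet.{0}, (i ∈ nat k ∨ i = nat k) ∧ z = i.pair D) s
  have hhs : ∀ k i D, (nat i).pair D ∈ hs k ↔ (nat i).pair D ∈ s ∧ i ≤ k := by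
    intro k i D
    refine ZFSet.mem_sep.trans (and_congr Iff.rfl ⟨?_, fun h => ⟨nat i, D, ?_, rfl⟩⟩)
    · rintro ⟨i', D', h1, e⟩
      rw [ZFSet.pair_inj] at e
      rw [← e.1] at h1
      rcases h1 with h1 | h1
      · obtain ⟨j, hj, e'⟩ := mem_nat.mp h1
        rw [nat_inj e']; exact hj.le
      · exact (nat_inj h1).le
    · rcases h.lt_or_eq with h' | h'
      · exact Or.inl (mem_nat.mpr ⟨i, h', rfl⟩)
      · exact Or.inr (by rw [h'])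
  have hDom : ∀ k, hs k ∈ Dom := by
    intro k
    refine ZFSet.mem_powerset.mpr fun z hz => ?_
    obtain ⟨j, D, rfl, hD⟩ := hmem' z (ZFSet.mem_sep.mp hz).1
    refine ZFSet.pair_mem_prod.mpr ⟨mem_omega.mpr ⟨j, rfl⟩, ZFSet.mem_powerset.mpr fun U hU => ?_⟩
    exact ZFSet.mem_powerset.mpr (hX _ hD U hU)
  have hch : ∀ k, L (ch (hs k)) (C k) ∧ T k (ch (hs k)) := by
    intro k
    obtain ⟨U, hU, hKU⟩ := hT k _ (hCk k)
    have h1 : Spec (hs k) (ch (hs k)) := Classical.epsilon_spec (p := Spec (hs k))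
      ⟨U, k, C k, (hhs _ _ _).mpr ⟨hCs k, le_rfl⟩, fun i D h => ((hhs _ _ _).mp h).2, hU, hKU⟩
    obtain ⟨n, D, h2, h3, h4, h5⟩ := h1
    have h6 := (hhs _ _ _).mp h2
    have h7 : n = k := le_antisymm h6.2 (h3 k (C k) ((hhs _ _ _).mpr ⟨hCs k, le_rfl⟩))
    subst h7
    rw [hfn _ _ _ h6.1 (hCs n)] at h4
    exact ⟨h4, h5⟩
  have hrep : ∀ k y, ground.rep σ s (nat k) y ↔ y = ch (hs k) := by
    intro k y
    rw [g_rep, hσ]
    exact ⟨fun h => h.2, fun h => ⟨hDom k, h⟩⟩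
  obtain ⟨W, hW1, hW2⟩ := hW C (fun k => ch (hs k)) hCk hch
  refine ⟨fun n hn => ?_, W, hW1, ?_⟩
  · obtain ⟨k, rfl⟩ := mem_omega.mp hn
    exact ⟨C k, ch (hs k), ⟨(g_app _ _ _).mpr (hCs k), (hrep _ _).mpr rfl⟩, (hch k).1⟩
  · intro (U : ZFSet.{0})
    refine (hW2 U).trans ⟨?_, ?_⟩
    · rintro ⟨k, hk⟩
      exact ⟨nat k, ch (hs k), ⟨mem_omega.mpr ⟨k, rfl⟩, (hrep _ _).mpr rfl⟩, hk⟩
    · rintro ⟨n, y, ⟨h1, h2⟩, h3⟩
      obtain ⟨k, rfl⟩ := mem_omega.mp h1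
      rw [(hrep _ _).mp h2] at h3
      exact ⟨k, h3⟩

/-- The space: countably many copies of the Cantor cube over `I`. -/
abbrev Cube (I : Type) : Type := (I → Bool) × ℕ

variable {I : Type}

theorem cube_cpt (n : ℕ) :
    ground.cpt (sX (Cube I)) (sT (Cube I)) (sS {y : Cube I | y.2 ≤ n}) := by
  refine sS_cpt ?_
  have : {y : Cube I | y.2 ≤ n} = Set.univ ×ˢ Set.Iic n := by ext y; simp
  rw [this]
  exact isCompact_univ.prod (Set.finite_Iic n).isCompact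

theorem cube_cof (C : ZFSet.{0}) (hC : ground.cpt (sX (Cube I)) (sT (Cube I)) C) :
    ∃ m, C ⊆ sS {y : Cube I | y.2 ≤ m} := by
  have h := goodGround.cpt_bounded (O := fun m => sS {y : Cube I | y.2 ≤ m}) (X := sX (Cube I))
    (τ := sT (Cube I))
    (fun m m' h _ => (g_sub _ _).mpr (sS_mono fun y (hy : y.2 ≤ m) => hy.trans h))
    (fun m _ => sS_opn ((isOpen_discrete (Set.Iic m)).preimage continuous_snd))
    (fun y b hb hb' => by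
      obtain ⟨x, _, rfl⟩ := mem_sS.mp (hb hb')
      rw [iSup_Prop_eq]
      exact ⟨x.2, cd_mem_sS.mpr (le_refl x.2)⟩) (b := True) (K := C) (fun _ => hC) trivial
  rw [iSup_Prop_eq] at h
  obtain ⟨m, hm⟩ := h
  exact ⟨m, (g_sub _ _).mp hm⟩

theorem cube_not_cpt : ¬ ground.cpt (sX (Cube I)) (sT (Cube I)) (sX (Cube I)) := by
  intro h
  obtain ⟨m, hm⟩ := cube_cof _ h
  have h1 : m + 1 ≤ m := (cd_mem_sS (A := {y : Cube I | y.2 ≤ m})).mp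
    (hm (cd_mem_sX (fun _ => false, m + 1)))
  omega

theorem mem_sUnion_range (y : ℕ → ZFSet.{0}) (U : ZFSet.{0}) :
    U ∈ (ZFSet.range y).sUnion ↔ ∃ k, U ∈ y k := by
  simp only [ZFSet.mem_sUnion, ZFSet.mem_range]
  exact ⟨fun ⟨_, ⟨k, e⟩, h⟩ => ⟨k, e ▸ h⟩, fun ⟨k, h⟩ => ⟨_, ⟨k, rfl⟩, h⟩⟩

theorem cube_game (i : Fin 3) : ground.game (sX (Cube I)) (sT (Cube I)) i := by
  have h0 : ∀ C : ZFSet.{0}, ground.opens (sX (Cube I)) (sT (Cube I)) C →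
      ∀ U ∈ C, U ⊆ sX (Cube I) := fun C h U hU => ((g_opn _ _ _).mp ((g_opens _ _ _).mp h U hU)).1
  have h1 : ∀ C y : ℕ → ZFSet.{0}, (∀ k, ground.opens (sX (Cube I)) (sT (Cube I)) (C k)) →
      (∀ k, ground.sub (y k) (C k)) →
      ground.opens (sX (Cube I)) (sT (Cube I)) (ZFSet.range y).sUnion := fun C y hC hy =>
    (g_opens _ _ _).mpr fun U hU => by
      obtain ⟨k, hk⟩ := (mem_sUnion_range _ _).mp hU
      exact (g_opens _ _ _).mp (hC k) U ((g_sub _ _).mp (hy k) hk)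
  fin_cases i
  · refine gwins_of _ _ _ (fun n U => sS {y : Cube I | y.2 ≤ n} ⊆ U) (fun C h => h0 C h.1)
      (fun n C h => ((g_kcov _ _ _).mp h).2 _ (cube_cpt n)) fun C y hC hy =>
      ⟨ZFSet.range y, (g_kcov _ _ _).mpr ⟨(g_opens _ _ _).mpr fun U hU => ?_, fun K hK => ?_⟩,
        fun U => ZFSet.mem_range.trans (exists_congr fun _ => eq_comm)⟩
    · obtain ⟨k, rfl⟩ := ZFSet.mem_range.mp hU
      exact (g_opens _ _ _).mp (hC k).1 _ (hy k).1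
    · obtain ⟨m, hm⟩ := cube_cof K hK
      exact ⟨y m, ZFSet.mem_range.mpr ⟨m, rfl⟩, fun z hz => (hy m).2 (hm hz)⟩
  · refine gwins_of _ _ _ (fun n F => ∃ U ∈ F, sS {y : Cube I | y.2 ≤ n} ⊆ U) (fun C h => h0 C h.1)
      (fun n C h => ?_) fun C y hC hy => ⟨(ZFSet.range y).sUnion, (g_kcov _ _ _).mpr
        ⟨h1 C y (fun k => (hC k).1) fun k => (hy k).1.1, fun K hK => ?_⟩, mem_sUnion_range y⟩
    · obtain ⟨U, hU, hKU⟩ := ((g_kcov _ _ _).mp h).2 _ (cube_cpt n)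
      refine ⟨ZFSet.range fun _ : Fin 1 => U, ⟨(g_sub _ _).mpr fun z hz => ?_, g_fin_range _⟩,
        U, ZFSet.mem_range.mpr ⟨0, rfl⟩, hKU⟩
      obtain ⟨_, rfl⟩ := ZFSet.mem_range.mp hz
      exact hU
    · obtain ⟨m, hm⟩ := cube_cof K hK
      obtain ⟨U, hU, hKU⟩ := (hy m).2
      exact ⟨U, (mem_sUnion_range _ _).mpr ⟨m, hU⟩, fun z hz => hKU (hm hz)⟩
  · refine gwins_of _ _ _ (fun n F => ground.cov F (sS {y : Cube I | y.2 ≤ n}))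
      (fun C h => h0 C h.1) (fun n C h => ?_) fun C y hC hy => ⟨(ZFSet.range y).sUnion,
        ⟨h1 C y (fun k => (hC k).1) fun k => (hy k).1.1, (g_cov _ _).mpr fun z hz => ?_⟩,
        mem_sUnion_range y⟩
    · have h2 := (cube_cpt (I := I) n).2
      simp only [iSup_Prop_eq, iInf_Prop_eq, himp_iff_imp, inf_Prop_eq] at h2
      exact h2 C ⟨h.1, (g_cov _ _).mpr fun z hz => (g_cov _ _).mp h.2 z (sS_sub _ hz)⟩
    · obtain ⟨x, _, rfl⟩ := mem_sS.mp hz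
      obtain ⟨U, hU, hx⟩ := (g_cov _ _).mp (hy x.2).2 _ (cd_mem_sS.mpr (le_refl x.2))
      exact ⟨U, (mem_sUnion_range _ _).mpr ⟨x.2, hU⟩, hx⟩

end Pool.Agent.Lib.MP_e0f6ac_lc
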